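import Mathlib
import Pool.Agent.H361R2.PP.Iface
import Pool.Agent.H898R2.AC5

/-! project PP of helper361, task PP-MNI: sums over configurations with position dependent
weights -/

set_option autoImplicit false

open Finset

namespace Pool.Agent.H433R2.PPMni

open Pool.Agent.H410R2.AC Pool.Agent.H361R2.PP Pool.Agent.H898R2.AC5

variable {t : ℕ}

theorem term_nonneg {q : Fin t → ℕ → ℝ} (hq : ∀ τ a, 0 ≤ q τ a) (σ : Fin t → Option ℕ) :
    0 ≤ term q σ := by
  unfold term
  apply prod_nonneg
  intro τ _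
  rcases σ τ with _ | a
  · exact zero_le_one
  · exact hq τ a

theorem fibre_le {B : Finset ℕ} {q : Fin t → ℕ → ℝ} (hq : ∀ τ a, 0 ≤ q τ a) (τ₀ : Fin t) (a : ℕ) :
    ∑ σ ∈ (cfg t B).filter (fun σ => σ τ₀ = some a), term q σ ≤
      q τ₀ a * ∑ σ ∈ cfg t B, term q σ := by
  classical
  have h3 : ∀ σ ∈ (cfg t B).filter (fun σ => σ τ₀ = some a),
      term q σ = q τ₀ a * term q (Function.update σ τ₀ none) := by
    intro σ hσ
    rw [mem_filter] at hσ
    have h := prod_update (fun τ o => (match o with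
      | none => 1
      | some a => q τ a : ℝ)) σ τ₀ (some a) rfl
    have h4 : Function.update σ τ₀ (some a) = σ := by
      rw [← hσ.2, Function.update_eq_self]
    rw [h4] at h
    exact h
  rw [sum_congr rfl h3, ← mul_sum]
  apply mul_le_mul_of_nonneg_left _ (hq τ₀ a)
  have hinj : Set.InjOn (fun σ : Fin t → Option ℕ => Function.update σ τ₀ none)
      ((cfg t B).filter (fun σ => σ τ₀ = some a) : Set (Fin t → Option ℕ)) := by
    intro σ hσ σ' hσ' h
    have hσ1 := (mem_filter.1 hσ).2
    have hσ2 := (mem_filter.1 hσ').2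
    funext τ
    by_cases hτ : τ = τ₀
    · subst hτ
      rw [hσ1, hσ2]
    · have := congrFun h τ
      simp only [Function.update_of_ne hτ] at this
      exact this
  rw [← sum_image (f := fun σ => term q σ) hinj]
  apply sum_le_sum_of_subset_of_nonneg
  · intro σ hσ
    obtain ⟨σ', h', rfl⟩ := mem_image.1 hσ
    exact update_none_mem τ₀ (mem_filter.1 h').1
  · intro σ _ _
    exact term_nonneg hq σ

theorem occupied_le {B : Finset ℕ} {q : Fin t → ℕ → ℝ} (hq : ∀ τ a, 0 ≤ q τ a) (τ₀ : Fin t) :
    ∑ σ ∈ (cfg t B).filter (fun σ => σ τ₀ ≠ none), term q σ ≤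
      (∑ a ∈ B, q τ₀ a) * ∑ σ ∈ cfg t B, term q σ := by
  classical
  have h1 : ∑ σ ∈ (cfg t B).filter (fun σ => σ τ₀ ≠ none), term q σ =
      ∑ a ∈ B, ∑ σ ∈ (cfg t B).filter (fun σ => σ τ₀ = some a), term q σ := by
    simp only [sum_filter]
    rw [sum_comm]
    apply sum_congr rfl
    intro σ hσ
    rw [mem_cfg] at hσ
    rcases h : σ τ₀ with _ | a
    · simp
    · rw [if_pos (by simp), sum_eq_single a]
      · simp
      · intro b _ hb
        rw [if_neg]
        intro h'
        exact hb (Option.some_inj.1 h').symm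
      · intro h'
        exact absurd (hσ.1 τ₀ a h) h'
  rw [h1, sum_mul]
  exact sum_le_sum fun a _ => fibre_le hq τ₀ a

theorem outside_le {B B' : Finset ℕ} {q : Fin t → ℕ → ℝ} (hq : ∀ τ a, 0 ≤ q τ a) (hB : B' ⊆ B) :
    ∑ σ ∈ cfg t B, term q σ ≤ ∑ σ ∈ cfg t B', term q σ +
      ∑ τ, ∑ a ∈ B \ B', q τ a * ∑ σ ∈ cfg t B, term q σ := by
  classical
  have h1 : ∑ σ ∈ cfg t B, term q σ ≤ ∑ σ ∈ cfg t B', term q σ +
      ∑ τ, ∑ a ∈ B \ B', ∑ σ ∈ (cfg t B).filter (fun σ => σ τ = some a), term q σ := by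
    have hsub : cfg t B' = (cfg t B).filter (fun σ => σ ∈ cfg t B') := by
      ext σ
      rw [mem_filter]
      exact ⟨fun h => ⟨cfg_mono hB h, h⟩, fun h => h.2⟩
    have h0 : ∑ σ ∈ cfg t B', term q σ =
        ∑ σ ∈ cfg t B, (if σ ∈ cfg t B' then term q σ else 0) := by
      conv_lhs => rw [hsub]
      rw [sum_filter]
    have h2 : ∑ τ, ∑ a ∈ B \ B', ∑ σ ∈ (cfg t B).filter (fun σ => σ τ = some a), term q σ =
        ∑ σ ∈ cfg t B, ∑ τ, ∑ a ∈ B \ B', (if σ τ = some a then term q σ else 0) := by
      simp only [sum_filter]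
      calc ∑ τ, ∑ a ∈ B \ B', ∑ σ ∈ cfg t B, (if σ τ = some a then term q σ else 0)
          = ∑ τ, ∑ σ ∈ cfg t B, ∑ a ∈ B \ B', (if σ τ = some a then term q σ else 0) :=
            sum_congr rfl (fun τ _ => sum_comm)
        _ = _ := sum_comm
    rw [h0, h2, ← sum_add_distrib]
    apply sum_le_sum
    intro σ hσ
    have hnn : ∀ τ a, 0 ≤ (if σ τ = some a then term q σ else 0) := by
      intro τ a
      split_ifs
      · exact term_nonneg hq σ
      · exact le_rfl
    by_cases h : σ ∈ cfg t B'
    · rw [if_pos h]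
      have : 0 ≤ ∑ τ, ∑ a ∈ B \ B', (if σ τ = some a then term q σ else 0) :=
        sum_nonneg fun τ _ => sum_nonneg fun a _ => hnn τ a
      linarith
    · rw [if_neg h, zero_add]
      rw [mem_cfg] at h hσ
      have h3 : ∃ τ a, σ τ = some a ∧ a ∉ B' := by
        by_contra hcon
        push Not at hcon
        exact h ⟨hcon, hσ.2⟩
      obtain ⟨τ, a, h4, h5⟩ := h3
      have h6 : a ∈ B \ B' := mem_sdiff.2 ⟨hσ.1 τ a h4, h5⟩
      calc term q σ = (if σ τ = some a then term q σ else 0) := by rw [if_pos h4]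
        _ ≤ ∑ a ∈ B \ B', (if σ τ = some a then term q σ else 0) :=
            single_le_sum (f := fun a => if σ τ = some a then term q σ else 0)
              (fun a _ => hnn τ a) h6
        _ ≤ _ := single_le_sum
              (f := fun τ => ∑ a ∈ B \ B', (if σ τ = some a then term q σ else 0))
              (fun τ _ => sum_nonneg fun a _ => hnn τ a) (mem_univ τ)
  refine h1.trans ?_
  gcongr with τ _ a _
  exact fibre_le hq τ a

theorem upper {B : Finset ℕ} {q : Fin t → ℕ → ℝ} {η : ℝ} (hq : ∀ τ a, 0 ≤ q τ a)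
    (hη : ∀ τ, ∑ a ∈ B, q τ a ≤ η) : ∑ σ ∈ cfg t B, term q σ ≤ (1 + η) ^ t := by
  classical
  calc ∑ σ ∈ cfg t B, term q σ
      ≤ ∑ σ ∈ Fintype.piFinset (fun _ : Fin t => Finset.insertNone B), term q σ := by
        apply sum_le_sum_of_subset_of_nonneg
        · unfold cfg
          exact filter_subset _ _
        · intro σ _ _
          exact term_nonneg hq σ
    _ = ∏ τ : Fin t, ∑ o ∈ Finset.insertNone B, (match o with
          | none => 1
          | some a => q τ a : ℝ) := by
        rw [Finset.prod_univ_sum]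
        rfl
    _ = ∏ τ : Fin t, (1 + ∑ a ∈ B, q τ a) := by
        apply prod_congr rfl
        intro τ _
        rw [Finset.sum_insertNone]
    _ ≤ ∏ _τ : Fin t, (1 + η) := by
        apply prod_le_prod
        · intro τ _
          have : 0 ≤ ∑ a ∈ B, q τ a := sum_nonneg fun a _ => hq τ a
          linarith
        · intro τ _
          linarith [hη τ]
    _ = (1 + η) ^ t := by
        rw [prod_const, card_univ, Fintype.card_fin]

theorem mni : Mni := by
  classical
  intro t B β q η hη0 hβ0 hβ hq hη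
  have hcoef0 : ∀ σ : Fin t → Option ℕ, 0 ≤ coef β σ := by
    intro σ
    unfold coef
    apply sum_nonneg
    intro τ _
    split_ifs
    · exact le_rfl
    · exact hβ0 τ
  have hcoef1 : ∀ σ : Fin t → Option ℕ, coef β σ ≤ 1 := by
    intro σ
    unfold coef
    rw [← hβ]
    apply sum_le_sum
    intro τ _
    split_ifs
    · exact hβ0 τ
    · exact le_rfl
  have hterm := fun σ : Fin t → Option ℕ => term_nonneg hq σ
  have hS : 0 ≤ ∑ σ ∈ cfg t B, term q σ := sum_nonneg fun σ _ => hterm σ
  refine ⟨?_, upper hq hη, ?_⟩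
  · have h0 : (fun _ : Fin t => (none : Option ℕ)) ∈ cfg t B := by
      rw [mem_cfg]
      exact ⟨fun τ a h => by simp at h, fun τ τ' a h _ => by simp at h⟩
    have h1 : term q (fun _ : Fin t => (none : Option ℕ)) = 1 := by
      unfold term
      simp
    rw [← h1]
    exact single_le_sum (f := fun σ => term q σ) (fun σ _ => hterm σ) h0
  · intro B' hB'
    have hmono : cfg t B' ⊆ cfg t B := cfg_mono hB'
    have hA : ∑ σ ∈ cfg t B', coef β σ * term q σ ≤ η * ∑ σ ∈ cfg t B, term q σ := by
      calc ∑ σ ∈ cfg t B', coef β σ * term q σ ≤ ∑ σ ∈ cfg t B, coef β σ * term q σ :=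
            sum_le_sum_of_subset_of_nonneg hmono
              (fun σ _ _ => mul_nonneg (hcoef0 σ) (hterm σ))
        _ = ∑ τ, β τ * ∑ σ ∈ (cfg t B).filter (fun σ => σ τ ≠ none), term q σ := by
            unfold coef
            simp only [sum_mul, sum_filter, mul_sum]
            rw [sum_comm]
            apply sum_congr rfl
            intro τ _
            apply sum_congr rfl
            intro σ _
            by_cases h : σ τ = none
            · simp [h]
            · simp [h]
        _ ≤ ∑ τ, β τ * (η * ∑ σ ∈ cfg t B, term q σ) := by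
            apply sum_le_sum
            intro τ _
            apply mul_le_mul_of_nonneg_left _ (hβ0 τ)
            exact (occupied_le hq τ).trans (mul_le_mul_of_nonneg_right (hη τ) hS)
        _ = η * ∑ σ ∈ cfg t B, term q σ := by
            rw [← sum_mul, hβ, one_mul]
    refine ⟨hA, ?_, ?_, ?_⟩
    · refine le_trans ?_ hA
      apply sum_le_sum
      intro σ _
      apply mul_le_mul_of_nonneg_right _ (hterm σ)
      nlinarith [hcoef0 σ, hcoef1 σ]
    · exact sum_le_sum_of_subset_of_nonneg hmono (fun σ _ _ => hterm σ)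
    · have h := outside_le (B := B) (B' := B') hq hB'
      simp only [← sum_mul] at h
      linarith

end Pool.Agent.H433R2.PPMni
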